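import Mathlib
import Pool.Agent.H1.CM.Targets1

/-!
# Modules FLB and NIL (MP_bceb84_ag)
-/

namespace Pool.Agent.H54.BCE

open IsLocalRing Pool.Agent.H1.CM

lemma exists_pow_eq_bot (A : Type) [CommRing A] [IsLocalRing A] [IsArtinianRing A] :
    ∃ n : ℕ, (maximalIdeal A) ^ n = ⊥ := by
  obtain ⟨n, hn⟩ := IsArtinianRing.isNilpotent_jacobson_bot (R := A)
  rw [IsLocalRing.jacobson_eq_maximalIdeal _ bot_ne_top] at hn
  exact ⟨n, hn⟩

theorem flb : T_FLB := by
  intro A _ _ _ M _ _ _ I v h1 h2
  obtain ⟨L, hL⟩ := exists_pow_eq_bot A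
  set u := Finsupp.linearCombination A v with hu
  have hsup : (⊤ : Submodule A M) ≤ LinearMap.range u ⊔ maximalIdeal A • ⊤ := by
    intro x _
    obtain ⟨g, hg⟩ := h1 x
    have : x = u g + (x - u g) := by abel
    rw [this]
    exact Submodule.add_mem_sup ⟨g, rfl⟩ hg
  have hpow : ∀ n : ℕ, (⊤ : Submodule A M) ≤ LinearMap.range u ⊔ (maximalIdeal A) ^ n • ⊤ := by
    intro n
    induction n with
    | zero => simp
    | succ n ih =>
      refine ih.trans (sup_le le_sup_left ?_)
      calc (maximalIdeal A) ^ n • (⊤ : Submodule A M)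
          ≤ (maximalIdeal A) ^ n • (LinearMap.range u ⊔ maximalIdeal A • ⊤) :=
            Submodule.smul_mono le_rfl hsup
        _ = (maximalIdeal A) ^ n • LinearMap.range u
            ⊔ (maximalIdeal A) ^ n • (maximalIdeal A • ⊤) := Submodule.smul_sup _ _ _
        _ ≤ LinearMap.range u ⊔ (maximalIdeal A) ^ (n + 1) • ⊤ := by
            refine sup_le_sup Submodule.smul_le_right ?_
            rw [← Submodule.mul_smul, ← pow_succ]
  have hsurj : Function.Surjective u := by
    rw [← LinearMap.range_eq_top, eq_top_iff]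
    have := hpow L
    rwa [hL, Submodule.bot_smul, sup_bot_eq] at this
  refine ⟨?_, hsurj⟩
  rw [← LinearMap.ker_eq_bot]
  have hK : LinearMap.ker u ≤ maximalIdeal A • LinearMap.ker u := by
    intro g hg
    have h3 : ∀ i, g i ∈ maximalIdeal A := by
      apply h2 g
      rw [LinearMap.mem_ker.mp hg]
      exact Submodule.zero_mem _
    have h4 : g ∈ (maximalIdeal A • ⊤ : Submodule A (I →₀ A)) := by
      rw [← Finsupp.sum_single g]
      refine Submodule.sum_mem _ fun i _ => ?_
      have : (Finsupp.single i (g i) : I →₀ A) = g i • Finsupp.single i 1 := by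
        simp
      rw [this]
      exact Submodule.smul_mem_smul (h3 i) trivial
    have h5 := LinearMap.ker_inf_smul_top_eq_smul_of_flat (maximalIdeal A) u hsurj
    rw [← h5]
    exact ⟨hg, h4⟩
  have hKn : ∀ n : ℕ, LinearMap.ker u ≤ (maximalIdeal A) ^ n • LinearMap.ker u := by
    intro n
    induction n with
    | zero => simp
    | succ n ih =>
      refine ih.trans ?_
      rw [pow_succ, Submodule.mul_smul]
      exact Submodule.smul_mono le_rfl hK
  have := hKn L
  rw [hL, Submodule.bot_smul] at this
  exact le_bot_iff.mp this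

theorem nil : T_NIL := by
  intro A _ _ _ I E hE
  obtain ⟨L, hL⟩ := exists_pow_eq_bot A
  set N : Module.End A (I →₀ A) := LinearMap.id - E with hN
  have hNm : ∀ (n : ℕ) (g : I →₀ A), (∀ i, g i ∈ (maximalIdeal A) ^ n) →
      ∀ i, (N g) i ∈ (maximalIdeal A) ^ (n + 1) := by
    intro n g hg i
    have h1 : N g = g.sum fun j a => a • N (Finsupp.single j 1) := by
      conv_lhs => rw [← Finsupp.sum_single g]
      rw [Finsupp.sum, map_sum]
      refine Finset.sum_congr rfl fun j _ => ?_
      change N (Finsupp.single j (g j)) = g j • N (Finsupp.single j 1)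
      rw [← map_smul]
      simp
    rw [h1, Finsupp.sum, Finsupp.finsetSum_apply]
    refine Ideal.sum_mem _ fun j _ => ?_
    rw [Finsupp.smul_apply, smul_eq_mul, pow_succ]
    refine Ideal.mul_mem_mul (hg j) ?_
    have h2 := neg_mem (hE (Finsupp.single j 1) i)
    have h3 : (N (Finsupp.single j 1)) i
        = -((E (Finsupp.single j 1) - Finsupp.single j 1 : I →₀ A) i) := by
      simp [hN]
    rw [h3]
    exact h2
  have hNpow : ∀ (n : ℕ) (g : I →₀ A) (i : I), ((N ^ n) g) i ∈ (maximalIdeal A) ^ n := by
    intro n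
    induction n with
    | zero => intro g i; simp
    | succ n ih =>
      intro g i
      have h := hNm n _ (ih g) i
      rw [pow_succ' N]
      exact h
  have hNL : N ^ L = 0 := by
    refine LinearMap.ext fun g => Finsupp.ext fun i => ?_
    have := hNpow L g i
    rw [hL] at this
    simpa using this
  set E' : Module.End A (I →₀ A) := ∑ j ∈ Finset.range L, N ^ j with hE'
  have h1' : ∀ g, E (E' g) = g := fun g => by
    have h3 := mul_neg_geom_sum N L
    rw [hNL, ← hE'] at h3
    have h4 : E' g - N (E' g) = g - (0 : I →₀ A) :=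
      congrArg (fun T : Module.End A (I →₀ A) => T g) h3
    rw [sub_zero] at h4
    have h5 : N (E' g) = E' g - E (E' g) := rfl
    rw [h5] at h4
    have h6 : E (E' g) = E' g - (E' g - E (E' g)) := by abel
    rw [h6, h4]
  have h2' : ∀ g, E' (E g) = g := fun g => by
    have h3 := geom_sum_mul_neg N L
    rw [hNL, ← hE'] at h3
    have h4 : E' (g - N g) = g - (0 : I →₀ A) :=
      congrArg (fun T : Module.End A (I →₀ A) => T g) h3
    rw [sub_zero] at h4
    have h5 : N g = g - E g := rfl
    rw [h5] at h4
    have h6 : E g = g - (g - E g) := by abel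
    rw [h6, h4]
  refine ⟨⟨fun a b hab => ?_, fun g => ⟨E' g, h1' g⟩⟩, ?_⟩
  · have := congrArg E' hab
    rwa [h2', h2'] at this
  · intro R hR g hg
    refine ⟨E' g, ?_, h1' g⟩
    have hmem : ∀ h : I →₀ A, (∀ i ∈ h.support, i ∈ R) ↔ h ∈ Finsupp.supported A A R := by
      intro h
      rw [Finsupp.mem_supported]
      exact Iff.rfl
    have hEs : ∀ h ∈ Finsupp.supported A A R, E h ∈ Finsupp.supported A A R := by
      intro h hh
      rw [← hmem] at hh ⊢
      exact hR h hh
    have hNs : ∀ h ∈ Finsupp.supported A A R, N h ∈ Finsupp.supported A A R := by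
      intro h hh
      have : N h = h - E h := by simp [hN]
      rw [this]
      exact Submodule.sub_mem _ hh (hEs h hh)
    have hNps : ∀ (n : ℕ), ∀ h ∈ Finsupp.supported A A R,
        (N ^ n) h ∈ Finsupp.supported A A R := by
      intro n
      induction n with
      | zero => intro h hh; simpa using hh
      | succ n ih =>
        intro h hh
        rw [pow_succ' N]
        exact hNs _ (ih h hh)
    rw [hmem]
    rw [hmem] at hg
    rw [hE', LinearMap.sum_apply]
    exact Submodule.sum_mem _ fun j _ => hNps j g hg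

end Pool.Agent.H54.BCE
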