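import Mathlib
import Pool.Agent.H1.CM.Targets2

/-!
# Modules HOM and SUR (MP_bceb84_ag)
-/

open CategoryTheory AlgebraicGeometry Limits

namespace Pool.Agent.H54.BCE

open IsLocalRing Pool.Agent.H1.CM

section

variable {A k : Type} [CommRing A] [IsLocalRing A] [IsArtinianRing A] [Field k]
  (π : A →+* k)

lemma surj_spec : Surjective (Spec.map (CommRingCat.ofHom π)) := by
  refine ⟨fun p => ?_⟩
  have hsub : Subsingleton (PrimeSpectrum A) := inferInstance
  have hne : Nonempty (PrimeSpectrum k) := inferInstance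
  obtain ⟨q⟩ := hne
  exact ⟨q, hsub.elim _ _⟩

lemma hom_basic (hπ : Function.Surjective π) {X X₀ : Scheme.{0}} (f : X ⟶ Spec (CommRingCat.of A))
    (s₀ : X₀ ⟶ Spec (CommRingCat.of k)) (i : X₀ ⟶ X)
    (H : IsPullback i s₀ f (Spec.map (CommRingCat.ofHom π))) :
    IsClosedImmersion i ∧ Surjective i := by
  constructor
  · exact MorphismProperty.of_isPullback (P := @IsClosedImmersion) H.flip
      (IsClosedImmersion.spec_of_surjective _ hπ)
  · exact MorphismProperty.of_isPullback (P := @Surjective) H.flip (surj_spec π)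

end

theorem hom : T_HOM := by
  intro A k _ _ _ _ π hπ X X₀ f s₀ i H
  obtain ⟨h1, h2⟩ := hom_basic π hπ f s₀ i H
  refine ⟨h1, ?_, ?_⟩
  · intro U₀
    have hcl : Topology.IsClosedEmbedding i := i.isClosedEmbedding
    refine ⟨⟨(i '' (U₀ : Set X₀)ᶜ)ᶜ,
      (hcl.isClosedMap _ U₀.isOpen.isClosed_compl).isOpen_compl⟩, ?_⟩
    ext x
    change i x ∈ (i '' (U₀ : Set X₀)ᶜ)ᶜ ↔ x ∈ U₀
    constructor
    · intro hx
      by_contra hx'
      exact hx ⟨x, hx', rfl⟩
    · rintro hx ⟨y, hy, hyx⟩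
      exact hy (hcl.injective hyx ▸ hx)
  · intro U U' hU x hx
    obtain ⟨y, rfl⟩ := h2.surj x
    exact hU hx

/-- Pushouts along surjections. -/
lemma pushout_surj {R C K P : CommRingCat.{0}} {f : R ⟶ C} {g : R ⟶ K} {h : C ⟶ P} {k : K ⟶ P}
    (sq : IsPushout f g h k) (hg : Function.Surjective g.hom) :
    Function.Surjective h.hom ∧
      ∀ c : C, h.hom c = 0 ↔ c ∈ Ideal.map f.hom (RingHom.ker g.hom) := by
  set J : Ideal C := Ideal.map f.hom (RingHom.ker g.hom) with hJ
  have hw : ∀ r : R, h.hom (f.hom r) = k.hom (g.hom r) := fun r => by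
    have := congrArg (fun T : R ⟶ P => T.hom r) sq.w
    exact this
  have hker : J ≤ RingHom.ker h.hom := by
    rw [hJ, Ideal.map_le_iff_le_comap]
    intro r hr
    rw [Ideal.mem_comap, RingHom.mem_ker, hw, RingHom.mem_ker.mp hr, map_zero]
  let q : C →+* (C ⧸ J) := Ideal.Quotient.mk J
  have hq : RingHom.ker g.hom ≤ RingHom.ker (q.comp f.hom) := by
    intro r hr
    rw [RingHom.mem_ker, RingHom.comp_apply]
    exact Ideal.Quotient.eq_zero_iff_mem.mpr (Ideal.mem_map_of_mem _ hr)
  let kq : K →+* (C ⧸ J) := RingHom.liftOfSurjective g.hom hg ⟨q.comp f.hom, hq⟩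
  have hkq : ∀ r : R, kq (g.hom r) = q (f.hom r) := fun r =>
    RingHom.liftOfRightInverse_comp_apply _ _ _ _ r
  let φ : P ⟶ CommRingCat.of (C ⧸ J) := sq.desc (CommRingCat.ofHom q) (CommRingCat.ofHom kq) (by
    ext r
    exact (hkq r).symm)
  have hφ1 : ∀ c : C, φ.hom (h.hom c) = q c := fun c => by
    have := congrArg (fun T : C ⟶ CommRingCat.of (C ⧸ J) => T.hom c)
      (sq.inl_desc (CommRingCat.ofHom q) (CommRingCat.ofHom kq) (by
        ext r
        exact (hkq r).symm))
    exact this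
  let ψ : (C ⧸ J) →+* P := Ideal.Quotient.lift J h.hom (fun a ha => hker ha)
  have hψ : ∀ c : C, ψ (q c) = h.hom c := fun c => Ideal.Quotient.lift_mk _ _ _
  have hid : φ ≫ CommRingCat.ofHom ψ = 𝟙 P := by
    apply sq.hom_ext
    · ext c
      change ψ (φ.hom (h.hom c)) = h.hom c
      rw [hφ1, hψ]
    · ext x
      obtain ⟨r, rfl⟩ := hg x
      change ψ (φ.hom (k.hom (g.hom r))) = k.hom (g.hom r)
      rw [← hw, hφ1, hψ]
  constructor
  · intro p
    obtain ⟨c, hc⟩ := Ideal.Quotient.mk_surjective (φ.hom p)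
    refine ⟨c, ?_⟩
    have h3 : ψ (φ.hom p) = p := by
      have := congrArg (fun T : P ⟶ P => T.hom p) hid
      exact this
    rw [← h3, ← hc]
    exact (hψ c).symm
  · intro c
    constructor
    · intro hc
      rw [← Ideal.Quotient.eq_zero_iff_mem]
      have := hφ1 c
      rw [hc, map_zero] at this
      exact this.symm
    · intro hc
      exact hker hc

theorem sur : T_SUR := by
  intro A k _ _ _ _ π hπ X X₀ f s₀ i H U hU
  obtain ⟨h1, h2⟩ := hom_basic π hπ f s₀ i H
  refine ⟨hU.preimage i, ?_⟩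
  have hiso := (isIso_pushoutSection_iff (US := ⊤) (UT := ⊤) (UX := U) (UY := i ⁻¹ᵁ U) H
    (by simp) (by simp) (by simp)).mp
    (isIso_pushoutSection_of_isAffineOpen (US := ⊤) (UT := ⊤) (UX := U)
    (UY := i ⁻¹ᵁ U) H (by simp) (by simp) (by simp) (isAffineOpen_top _) (isAffineOpen_top _) hU)
  set e := (Scheme.ΓSpecIso (CommRingCat.of A)).inv with he
  set e' := (Scheme.ΓSpecIso (CommRingCat.of k)).inv with he'
  set g := (Spec.map (CommRingCat.ofHom π)).appLE ⊤ ⊤ (by simp) with hg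
  have hge : e ≫ g = CommRingCat.ofHom π ≫ e' := by
    have hg2 : g = (Spec.map (CommRingCat.ofHom π)).appTop := Scheme.Hom.appLE_eq_app _
    rw [hg2]
    exact (Scheme.ΓSpecIso_inv_naturality (CommRingCat.ofHom π)).symm
  have hge' : ∀ a : A, g.hom (e.hom a) = e'.hom (π a) := fun a => by
    have := congrArg (fun T : CommRingCat.of A ⟶ _ => T.hom a) hge
    exact this
  have he1 : Function.Bijective e.hom :=
    (ConcreteCategory.bijective_of_isIso e)
  have he2 : Function.Bijective e'.hom :=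
    (ConcreteCategory.bijective_of_isIso e')
  have hgs : Function.Surjective g.hom := by
    intro y
    obtain ⟨z, rfl⟩ := he2.2 y
    obtain ⟨a, rfl⟩ := hπ z
    exact ⟨e.hom a, hge' a⟩
  have hker : RingHom.ker g.hom = Ideal.map e.hom (maximalIdeal A) := by
    have hkπ : RingHom.ker π = maximalIdeal A := by
      exact IsLocalRing.ker_eq_maximalIdeal π hπ
    ext x
    obtain ⟨a, rfl⟩ := he1.2 x
    rw [RingHom.mem_ker, hge', Ideal.mem_map_iff_of_surjective _ he1.2, map_eq_zero_iff _ he2.1]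
    constructor
    · intro ha
      exact ⟨a, by rw [← hkπ]; exact ha, rfl⟩
    · rintro ⟨b, hb, hba⟩
      rw [← he1.1 hba]
      rw [← hkπ] at hb
      exact hb
  have key := pushout_surj hiso hgs
  rw [hker, Ideal.map_map] at key
  rw [Scheme.Hom.appLE_eq_app] at key
  exact key

end Pool.Agent.H54.BCE
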